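import Pool.Agent.H317.GR.StmA

/-!
# GR DSC: descent of representations to an algebraically closed subfield
-/

set_option autoImplicit false

namespace Pool.Agent.H772.GR

open Matrix Module Pool.Agent.H317.GR

/-- The Nullstellensatz: finitely generated subalgebras have points. -/
theorem exists_point {k K : Type} [Field k] [Field K] [IsAlgClosed k] [Algebra k K]
    (A : Subalgebra k K) (hA : A.FG) : Nonempty (A →ₐ[k] k) := by
  have hft : Algebra.FiniteType k A := A.fg_iff_finiteType.1 hA
  obtain ⟨m, hm⟩ := Ideal.exists_maximal A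
  let _ : Field (A ⧸ m) := Ideal.Quotient.field m
  have hft2 : Algebra.FiniteType k (A ⧸ m) :=
    Algebra.FiniteType.of_surjective (Ideal.Quotient.mkₐ k m) (Ideal.Quotient.mkₐ_surjective k m)
  have hfin : Module.Finite k (A ⧸ m) := finite_of_finite_type_of_isJacobsonRing k (A ⧸ m)
  have hbij : Function.Bijective (algebraMap k (A ⧸ m)) :=
    IsAlgClosed.algebraMap_bijective_of_isIntegral
  exact ⟨(AlgEquiv.ofBijective (Algebra.ofId k (A ⧸ m)) hbij).symm.toAlgHom.comp
    (Ideal.Quotient.mkₐ k m)⟩

/-- The entries of the matrices of a finitely generated group lie in a finitely generated algebra. -/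
theorem exists_alg {k K : Type} [Field k] [Field K] [Algebra k K] {G : Type} [Group G]
    [Group.FG G] {n : ℕ} (ρ : G →* GL (Fin n) K) :
    ∃ A : Subalgebra k K, A.FG ∧ ∀ (g : G) (i j : Fin n), (ρ g).val i j ∈ A := by
  classical
  obtain ⟨S, hS⟩ := Group.fg_def.1 (inferInstance : Group.FG G)
  let E : Finset K := S.biUnion fun s => (Finset.univ : Finset (Fin n × Fin n)).image
    fun p => (ρ s).val p.1 p.2
  let E' : Finset K := S.biUnion fun s => (Finset.univ : Finset (Fin n × Fin n)).image
    fun p => (ρ s⁻¹).val p.1 p.2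
  refine ⟨Algebra.adjoin k ((E ∪ E' : Finset K) : Set K), ⟨E ∪ E', rfl⟩, ?_⟩
  have key : ∀ g : G, (∀ i j : Fin n, (ρ g).val i j ∈
      Algebra.adjoin k ((E ∪ E' : Finset K) : Set K)) ∧ ∀ i j : Fin n, (ρ g⁻¹).val i j ∈
      Algebra.adjoin k ((E ∪ E' : Finset K) : Set K) := by
    have hmul : ∀ g h : G, (∀ i j : Fin n, (ρ g).val i j ∈
        Algebra.adjoin k ((E ∪ E' : Finset K) : Set K)) → (∀ i j : Fin n, (ρ h).val i j ∈
        Algebra.adjoin k ((E ∪ E' : Finset K) : Set K)) → ∀ i j : Fin n, (ρ (g * h)).val i j ∈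
        Algebra.adjoin k ((E ∪ E' : Finset K) : Set K) := by
      intro g h hg hh i j
      rw [map_mul, Units.val_mul, Matrix.mul_apply]
      exact Subalgebra.sum_mem _ fun l _ => Subalgebra.mul_mem _ (hg i l) (hh l j)
    have hone : ∀ i j : Fin n, (ρ 1).val i j ∈
        Algebra.adjoin k ((E ∪ E' : Finset K) : Set K) := by
      intro i j
      rw [map_one, Units.val_one, Matrix.one_apply]
      split_ifs
      · exact Subalgebra.one_mem _
      · exact Subalgebra.zero_mem _
    intro g
    have hg : g ∈ Subgroup.closure (S : Set G) := by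
      rw [hS]
      exact Subgroup.mem_top g
    refine Subgroup.closure_induction (p := fun g _ => (∀ i j : Fin n, (ρ g).val i j ∈
      Algebra.adjoin k ((E ∪ E' : Finset K) : Set K)) ∧ ∀ i j : Fin n, (ρ g⁻¹).val i j ∈
      Algebra.adjoin k ((E ∪ E' : Finset K) : Set K)) ?_ ?_ ?_ ?_ hg
    · intro s hs
      refine ⟨fun i j => Algebra.subset_adjoin ?_, fun i j => Algebra.subset_adjoin ?_⟩
      · refine Finset.mem_coe.2 (Finset.mem_union_left _ (Finset.mem_biUnion.2 ⟨s, hs, ?_⟩))
        exact Finset.mem_image.2 ⟨(i, j), Finset.mem_univ _, rfl⟩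
      · refine Finset.mem_coe.2 (Finset.mem_union_right _ (Finset.mem_biUnion.2 ⟨s, hs, ?_⟩))
        exact Finset.mem_image.2 ⟨(i, j), Finset.mem_univ _, rfl⟩
    · refine ⟨hone, ?_⟩
      rw [inv_one]
      exact hone
    · intro g h _ _ hg hh
      refine ⟨hmul g h hg.1 hh.1, ?_⟩
      rw [_root_.mul_inv_rev]
      exact hmul _ _ hh.2 hg.2
    · intro g _ hg
      refine ⟨hg.2, ?_⟩
      rw [inv_inv]
      exact hg.1
  exact fun g => (key g).1

theorem dsc : S_DSC := by
  intro k K _ _ _ _ G _ _ n ρ
  obtain ⟨A, hA, hmem⟩ := exists_alg (k := k) ρ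
  obtain ⟨θ⟩ := exists_point A hA
  let MA : G →* Matrix (Fin n) (Fin n) A :=
    { toFun := fun g => Matrix.of fun i j => ⟨(ρ g).val i j, hmem g i j⟩
      map_one' := by
        ext i j
        change (ρ 1).val i j = ((1 : Matrix (Fin n) (Fin n) A) i j : K)
        rw [map_one, Units.val_one, Matrix.one_apply, Matrix.one_apply]
        split_ifs <;> rfl
      map_mul' := by
        intro g h
        ext i j
        rw [Matrix.mul_apply]
        change (ρ (g * h)).val i j = _
        rw [map_mul, Units.val_mul, Matrix.mul_apply, AddSubmonoidClass.coe_finsetSum]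
        rfl }
  let φ : G →* Matrix (Fin n) (Fin n) k :=
    ((θ : A →+* k).mapMatrix (m := Fin n)).toMonoidHom.comp MA
  have hφ : ∀ g, (MonoidHom.toHomUnits φ g).val = (θ : A →+* k).mapMatrix (MA g) := fun g => rfl
  refine ⟨MonoidHom.toHomUnits φ, ?_, ?_⟩
  · intro g hg
    apply Units.ext
    rw [hφ, Units.val_one]
    have h1 : MA g = 1 := by
      rw [← map_one MA]
      ext i j
      change (ρ g).val i j = (ρ 1).val i j
      rw [hg, map_one]
    rw [h1, map_one]
  · intro g x hx
    rw [hφ]
    have h1 : ((θ : A →+* k).mapMatrix (MA g)).trace = θ (MA g).trace := by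
      unfold Matrix.trace
      rw [map_sum]
      rfl
    have h2 : (MA g).trace = algebraMap k A x := by
      apply Subtype.ext
      change ((MA g).trace : K) = algebraMap k K x
      rw [← hx]
      unfold Matrix.trace
      rw [AddSubmonoidClass.coe_finsetSum]
      rfl
    rw [h1, h2, AlgHom.commutes]
    rfl

end Pool.Agent.H772.GR
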